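import Mathlib
import Pool.Agent.Lib.helper9.Lyap

set_option autoImplicit false

namespace Pool.Agent.Results.MP_25d917_an.Yes

open Module ContinuousLinearMap
open scoped InnerProductSpace

theorem main {E U : Type} [NormedAddCommGroup E] [InnerProductSpace ℂ E] [FiniteDimensional ℂ E] [CompleteSpace E]
    [NormedAddCommGroup U] [InnerProductSpace ℂ U] [FiniteDimensional ℂ U] [CompleteSpace U]
    (hm : finrank ℂ U < finrank ℂ E) (A : E →L[ℂ] E) (hA : A.adjoint = -A) : ∃ C : ℝ, ∀ (B : U →L[ℂ] E) (X : E →L[ℂ] E),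
      X.adjoint = X → (∀ v, v ≠ 0 → 0 < (⟪v, X v⟫_ℂ).re) → A.adjoint ∘L X + X ∘L A - X ∘L B ∘L B.adjoint ∘L X + 1 = 0 →
      ∃ (μ : ℂ) (w : E), w ≠ 0 ∧ (A - B ∘L B.adjoint ∘L X) w = μ • w ∧ -μ.re ≤ C := by
  set n := finrank ℂ E
  refine ⟨(1 + 3 * ‖A‖) ^ 2 * n, fun B X s p r => ?_⟩
  by_contra! h
  have i : Function.Injective X.toLinearMap := (injective_iff_map_eq_zero _).2 fun w a => by
    by_contra b
    simpa [show X w = 0 from a] using p w b
  let Y := (LinearEquiv.ofInjectiveEndo _ i).symm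
  have y : ∀ w, X (Y w) = w := (LinearEquiv.ofInjectiveEndo _ i).apply_symm_apply
  have k : ∀ w, X ((A - B ∘L B.adjoint ∘L X) (Y w)) = A w - Y w := fun w => by
    have := congrArg (· (Y w)) r
    simp only [hA, add_apply, sub_apply, comp_apply, y, neg_apply, one_apply_eq_self, zero_apply, map_sub] at this ⊢
    rw [← sub_eq_zero, ← this]
    abel
  let Z := 1 + Y.toLinearMap - A.toLinearMap
  have z : ∀ w, ‖w‖ ^ 2 ≤ (⟪Z w, w⟫_ℂ).re := fun w => by
    have a : (⟪A w, w⟫_ℂ).re = 0 := by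
      have := adjoint_inner_right A w w
      rw [hA, neg_apply, inner_neg_right, ← inner_conj_symm w] at this
      have := congrArg Complex.re this
      simp only [Complex.neg_re, Complex.conj_re] at this
      linarith
    have b : 0 ≤ (⟪Y w, w⟫_ℂ).re := by
      rcases eq_or_ne w 0 with rfl | c
      · simp
      simpa [y] using (p (Y w) (by simpa)).le
    simpa [Z, inner_sub_left, inner_add_left, a, inner_self_eq_norm_sq_to_K, ← Complex.ofReal_pow] using b
  let e := LinearEquiv.ofInjectiveEndo Z ((injective_iff_map_eq_zero _).2 fun w a => by simpa [a] using z w)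
  have f : ∀ w, Z (e.symm w) = w := e.apply_symm_apply
  have n0 : (0 : ℝ) < n := Nat.cast_pos.2 (by omega)
  have t := Lib.helper9.Lyap.tr (-e.symm.toLinearMap) ((1 + 3 * ‖A‖) ^ 2 * n + 1) fun ν a => by
    obtain ⟨w, a⟩ := a.exists_hasEigenvector
    have b := f w
    rw [show e.symm w = -ν • w by rw [neg_smul, ← a.apply_eq_smul]; simp, map_smul] at b
    have c : -ν ≠ 0 := fun c => a.2 (by simpa [c] using b.symm)
    have := h (1 - (-ν)⁻¹) (Y w) (by simpa using a.2) (i (by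
      rw [coe_coe, k, map_smul, y, sub_smul, one_smul, (inv_smul_eq_iff₀ c).2 b.symm]
      simp [Z]
      abel))
    rw [← Complex.neg_re ν]
    generalize -ν = u at c this
    rw [Complex.sub_re, Complex.one_re, Complex.inv_re, neg_sub, lt_sub_iff_add_lt, lt_div_iff₀ (Complex.normSq_pos.2 c),
      Complex.normSq_apply] at this
    have q : 0 < (1 + 3 * ‖A‖) ^ 2 * n + 1 := by positivity
    generalize (1 + 3 * ‖A‖) ^ 2 * n + 1 = g at q this
    by_contra d
    have : 0 < u.re := by nlinarith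
    nlinarith [mul_self_nonneg u.im, mul_nonneg q.le (mul_self_nonneg u.im)]
  obtain ⟨v, a, v0⟩ := (Submodule.ne_bot_iff _).1
    (LinearMap.ker_ne_bot_of_finrank_lt (f := B.adjoint.toLinearMap) hm)
  have l : ‖Y v‖ ≤ 2 * ‖A‖ * ‖v‖ := by
    have c := k v
    simp only [sub_apply, comp_apply, y, show B.adjoint v = 0 from a, map_zero, sub_zero] at c
    have d := adjoint_inner_right X (Y v) (A (Y v))
    rw [s, y, c, inner_sub_right, sub_eq_iff_eq_add', ← sub_eq_iff_eq_add] at d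
    have g := (norm_sub_le _ _).trans (add_le_add ((norm_inner_le_norm (𝕜 := ℂ) _ _).trans (mul_le_mul_of_nonneg_left
      (A.le_opNorm v) (norm_nonneg (Y v)))) ((norm_inner_le_norm (𝕜 := ℂ) v _).trans (mul_le_mul_of_nonneg_left
      (A.le_opNorm (Y v)) (norm_nonneg _))))
    rw [d, inner_self_eq_norm_sq_to_K, norm_pow, norm_algebraMap', norm_norm] at g
    exact le_of_mul_le_mul_left (by linarith) (norm_pos_iff.2 (show Y v ≠ 0 by simpa))
  let b := stdOrthonormalBasis ℂ E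
  have g : ‖v‖ ≤ ∑ i, ‖⟪b i, Z v⟫_ℂ‖ * ‖e.symm (b i)‖ := by
    conv_lhs => rw [← e.symm_apply_apply v, ← b.sum_repr' (e v), map_sum]
    refine (norm_sum_le _ _).trans_eq (Finset.sum_congr rfl fun i _ => ?_)
    rw [map_smul, norm_smul]
    rfl
  have g := (pow_le_pow_left₀ (norm_nonneg _) g 2).trans (Finset.sum_mul_sq_le_sq_mul_sq _ _ _)
  rw [b.sum_sq_norm_inner_right] at g
  have u := Finset.sum_le_sum fun i (_ : i ∈ Finset.univ) => z (e.symm (b i))
  simp only [f] at u
  rw [← Complex.re_sum] at u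
  rw [map_neg, Complex.neg_re, neg_neg, LinearMap.trace_eq_sum_inner _ b] at t
  have o : ‖Z v‖ ≤ (1 + 3 * ‖A‖) * ‖v‖ := ((norm_sub_le _ _).trans (add_le_add (norm_add_le _ _)
    (A.le_opNorm v))).trans (by change ‖v‖ + ‖Y v‖ + _ ≤ _; linarith)
  have x := norm_pos_iff.2 v0
  have := g.trans (mul_le_mul (pow_le_pow_left₀ (norm_nonneg _) o 2) u (by positivity) (by positivity))
  rw [mul_pow, mul_right_comm, le_mul_iff_one_le_left (by positivity)] at this
  have := mul_le_mul_of_nonneg_left t (sq_nonneg (1 + 3 * ‖A‖))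
  simp only [LinearEquiv.coe_coe] at this
  nlinarith [mul_pos (show 0 < (1 + 3 * ‖A‖) ^ 2 by positivity) n0]

theorem result (E U : Type) [NormedAddCommGroup E] [InnerProductSpace ℂ E] [FiniteDimensional ℂ E] [CompleteSpace E]
    [NormedAddCommGroup U] [InnerProductSpace ℂ U] [FiniteDimensional ℂ U] [CompleteSpace U]
    (hm : finrank ℂ U < finrank ℂ E) (A : E →L[ℂ] E) (hA : A.adjoint = -A) : ∃ C : ℝ, ∀ (B : U →L[ℂ] E) (X : E →L[ℂ] E),
      X.adjoint = X → (∀ v, v ≠ 0 → 0 < (⟪v, X v⟫_ℂ).re) →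
      A.adjoint ∘L X + X ∘L A - X ∘L B ∘L B.adjoint ∘L X + 1 = 0 →
      ∃ (μ : ℂ) (w : E), w ≠ 0 ∧ (A - B ∘L B.adjoint ∘L X) w = μ • w ∧ -μ.re ≤ C :=
  main hm A hA

end Pool.Agent.Results.MP_25d917_an.Yes
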